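import Pool.Agent.R59.IGraph.Well

/-!
# Graphs that are both `i`-graphs and alpha-graphs

The graphs that are `i`-graph realizable and alpha-graph realizable are exactly the alpha-graph
realizable graphs, and they are characterised by Johnson labellings with the flag condition. The
class lies strictly between the `i`-graphs of well-covered graphs and all `i`-graphs.
-/

namespace Pool.Agent.Results.MP_5d374e_co.BothIffAlphaGraph

open Pool.Agent.R59.IGraph

/-- (1) A graph is both an `i`-graph and an alpha-graph iff it is an alpha-graph.
(2) This holds iff it has at least one vertex and a Johnson labelling with the flag condition.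
(3) A graph is an `i`-graph iff it has at least one vertex and a Johnson labelling with the
maximality condition.
(4) Some `i`-graph (the cube minus a vertex) is not an alpha-graph.
(5) Some graph on twelve vertices is both an `i`-graph and an alpha-graph but not the `i`-graph of
a well-covered graph. -/
theorem result :
    (∀ (W : Type) (H : SimpleGraph W), (IRealizable H ∧ ARealizable H) ↔ ARealizable H) ∧
    (∀ (W : Type) (H : SimpleGraph W), (IRealizable H ∧ ARealizable H) ↔
      Nonempty W ∧ ∃ (U : Type) (_ : Fintype U) (_ : DecidableEq U) (k : ℕ) (f : W → Finset U),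
        JohnsonLabelling H k f ∧ Flag k f) ∧
    (∀ (W : Type) (H : SimpleGraph W), IRealizable H ↔
      Nonempty W ∧ ∃ (U : Type) (_ : Fintype U) (_ : DecidableEq U) (k : ℕ) (f : W → Finset U),
        JohnsonLabelling H k f ∧ Maxi f) ∧
    (IRealizable cubeMinus ∧ ¬ ARealizable cubeMinus) ∧
    (IRealizable twelve ∧ ARealizable twelve ∧ ¬ WRealizable twelve) := by
  have h1 : ∀ (W : Type) (H : SimpleGraph W),
      (IRealizable H ∧ ARealizable H) ↔ ARealizable H :=
    fun W H => ⟨fun h => h.2, fun h => ⟨iRealizable_of_aRealizable h, h⟩⟩
  refine ⟨h1, fun W H => (h1 W H).trans (aRealizable_iff H), fun W H => iRealizable_iff H,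
    ⟨cubeMinus_iRealizable, cubeMinus_not_aRealizable⟩,
    ⟨iRealizable_of_aRealizable twelve_aRealizable, twelve_aRealizable,
      twelve_not_wRealizable⟩⟩

end Pool.Agent.Results.MP_5d374e_co.BothIffAlphaGraph
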